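import Pool.Agent.MT100G.Stmts

/-! MT100-GEN, module GFM: relations between the values of all the entries of a fundamental matrix. -/

set_option autoImplicit false

namespace Pool.Agent.MT100G.H43

open Matrix Polynomial Pool.Agent.MT100
open scoped Kronecker

variable {d : Type} [Fintype d] [DecidableEq d]

/-- the embedding of the integral polynomials -/
noncomputable def zpH : ℤ[X] →+* PowerSeries ℚ :=
  (Polynomial.coeToPowerSeries.ringHom (R := ℚ)).comp (Polynomial.mapRingHom (Int.castRingHom ℚ))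

theorem zpH_apply (p : ℤ[X]) : zpH p = zp p := rfl

theorem gtype_zero : GType 0 := by
  refine ⟨1, one_pos, fun k => ⟨?_, 1, one_pos, by simp, fun i _ => ⟨0, by simp⟩⟩⟩
  simp

theorem dv_mul_ite (f : PowerSeries ℚ) (p : Prop) [Decidable p] :
    dv (f * (if p then 1 else 0)) = dv f * (if p then 1 else 0) := by
  split_ifs
  · rw [mul_one, mul_one]
  · rw [mul_zero, mul_zero]
    exact map_zero _

/-- the system of the columns of all the entries -/
theorem gsys_kron {H K : Matrix d d (PowerSeries ℚ)} {N : Matrix d d ℤ} {q : ℤ[X]}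
    {B : Matrix d d ℤ[X]} (hS : GSys H K N q B) :
    GSys (H ⊗ₖ (1 : Matrix d d (PowerSeries ℚ))) (K ⊗ₖ (1 : Matrix d d (PowerSeries ℚ)))
      (N ⊗ₖ (1 : Matrix d d ℤ) - (1 : Matrix d d ℤ) ⊗ₖ Nᵀ) q
      (B ⊗ₖ (1 : Matrix d d ℤ[X]) - q • ((1 : Matrix d d ℤ[X]) ⊗ₖ (Nᵀ.map (fun x => C x)))) := by
  refine ⟨?_, ?_, ?_, hS.q0, ?_, ?_, ?_⟩
  · rw [← Matrix.mul_kronecker_mul, hS.inv, one_mul, Matrix.one_kronecker_one]
  · rintro ⟨i, j⟩ ⟨k, l⟩
    rw [Matrix.kronecker_apply, map_mul, hS.one, Matrix.one_apply]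
    simp only [Prod.mk.injEq]
    by_cases h1 : i = k <;> by_cases h2 : j = l <;> simp [h1, h2]
  · have hc : Commute (N ⊗ₖ (1 : Matrix d d ℤ)) ((1 : Matrix d d ℤ) ⊗ₖ Nᵀ) := by
      show _ * _ = _ * _
      rw [← Matrix.mul_kronecker_mul, ← Matrix.mul_kronecker_mul, one_mul, mul_one, one_mul, mul_one]
    refine hc.isNilpotent_sub ?_ ?_
    · obtain ⟨m, hm⟩ := hS.nil
      refine ⟨m, ?_⟩
      have : ∀ t : ℕ, (N ⊗ₖ (1 : Matrix d d ℤ)) ^ t = (N ^ t) ⊗ₖ (1 : Matrix d d ℤ) := by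
        intro t
        induction t with
        | zero => rw [pow_zero, pow_zero, Matrix.one_kronecker_one]
        | succ t ih => rw [pow_succ, ih, ← Matrix.mul_kronecker_mul, pow_succ, mul_one]
      rw [this, hm, Matrix.zero_kronecker]
    · obtain ⟨m, hm⟩ := hS.nil
      refine ⟨m, ?_⟩
      have : ∀ t : ℕ, ((1 : Matrix d d ℤ) ⊗ₖ Nᵀ) ^ t = (1 : Matrix d d ℤ) ⊗ₖ (Nᵀ ^ t) := by
        intro t
        induction t with
        | zero => rw [pow_zero, pow_zero, Matrix.one_kronecker_one]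
        | succ t ih => rw [pow_succ, ih, ← Matrix.mul_kronecker_mul, pow_succ, mul_one]
      rw [this, ← Matrix.transpose_pow, hm, Matrix.transpose_zero, Matrix.kronecker_zero]
  · set Bz : Matrix d d (PowerSeries ℚ) := B.map zp with hBz
    set Nz : Matrix d d (PowerSeries ℚ) := N.map (fun x => (x : PowerSeries ℚ)) with hNz
    have h1 : (H ⊗ₖ (1 : Matrix d d (PowerSeries ℚ))).map dv =
        (H.map dv) ⊗ₖ (1 : Matrix d d (PowerSeries ℚ)) := by
      ext ⟨i, j⟩ ⟨k, l⟩ : 2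
      rw [Matrix.map_apply, Matrix.kronecker_apply, Matrix.kronecker_apply, Matrix.map_apply,
        Matrix.one_apply, dv_mul_ite]
    have h2 : (B ⊗ₖ (1 : Matrix d d ℤ[X]) -
        q • ((1 : Matrix d d ℤ[X]) ⊗ₖ (Nᵀ.map (fun x => C x)))).map zp =
        Bz ⊗ₖ (1 : Matrix d d (PowerSeries ℚ)) -
          zp q • ((1 : Matrix d d (PowerSeries ℚ)) ⊗ₖ Nzᵀ) := by
      ext ⟨i, j⟩ ⟨k, l⟩ : 2
      simp only [Matrix.map_apply, Matrix.sub_apply, Matrix.smul_apply, Matrix.kronecker_apply,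
        Matrix.transpose_apply, smul_eq_mul, ← zpH_apply, map_sub, map_mul, hBz, hNz]
      have h3 : ∀ a b : d, zpH ((1 : Matrix d d ℤ[X]) a b) = (1 : Matrix d d (PowerSeries ℚ)) a b := by
        intro a b
        rw [Matrix.one_apply, Matrix.one_apply]
        split_ifs
        · exact map_one _
        · exact map_zero _
      rw [h3, h3]
      congr 3
      rw [show (C (N l j) : ℤ[X]) = ((N l j : ℤ) : ℤ[X]) from (Polynomial.C_eq_intCast _)]
      rw [map_intCast zpH]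
    have h3 : (N ⊗ₖ (1 : Matrix d d ℤ) - (1 : Matrix d d ℤ) ⊗ₖ Nᵀ).map
        (fun x => (x : PowerSeries ℚ)) =
        Nz ⊗ₖ (1 : Matrix d d (PowerSeries ℚ)) - (1 : Matrix d d (PowerSeries ℚ)) ⊗ₖ Nzᵀ := by
      have h4 : ∀ a b : d, (((1 : Matrix d d ℤ) a b : ℤ) : PowerSeries ℚ) =
          (1 : Matrix d d (PowerSeries ℚ)) a b := by
        intro a b
        rw [Matrix.one_apply, Matrix.one_apply]
        split_ifs <;> simp
      ext ⟨i, j⟩ ⟨k, l⟩ : 2
      simp only [Matrix.map_apply, Matrix.sub_apply, Matrix.kronecker_apply,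
        Matrix.transpose_apply, hNz]
      rw [Int.cast_sub, Int.cast_mul, Int.cast_mul, h4, h4]
    rw [h1, h2, h3, ← Matrix.smul_kronecker, hS.ode, ← hBz, ← hNz]
    have h5 : Bz ⊗ₖ (1 : Matrix d d (PowerSeries ℚ)) * H ⊗ₖ (1 : Matrix d d (PowerSeries ℚ)) =
        (Bz * H) ⊗ₖ (1 : Matrix d d (PowerSeries ℚ)) := by
      rw [← Matrix.mul_kronecker_mul, one_mul]
    have h6 : (1 : Matrix d d (PowerSeries ℚ)) ⊗ₖ Nzᵀ * H ⊗ₖ (1 : Matrix d d (PowerSeries ℚ)) =
        H ⊗ₖ Nzᵀ := by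
      rw [← Matrix.mul_kronecker_mul, one_mul, mul_one]
    have h7 : H ⊗ₖ (1 : Matrix d d (PowerSeries ℚ)) * Nz ⊗ₖ (1 : Matrix d d (PowerSeries ℚ)) =
        (H * Nz) ⊗ₖ (1 : Matrix d d (PowerSeries ℚ)) := by
      rw [← Matrix.mul_kronecker_mul, one_mul]
    have h8 : H ⊗ₖ (1 : Matrix d d (PowerSeries ℚ)) * (1 : Matrix d d (PowerSeries ℚ)) ⊗ₖ Nzᵀ =
        H ⊗ₖ Nzᵀ := by
      rw [← Matrix.mul_kronecker_mul, one_mul, mul_one]
    rw [sub_mul, mul_sub, Matrix.smul_mul, h5, h6, h7, h8, smul_sub, sub_eq_add_neg (Bz * H),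
      Matrix.add_kronecker, ← neg_smul, Matrix.smul_kronecker, neg_smul]
    abel
  · rintro ⟨i, j⟩ ⟨k, l⟩
    rw [Matrix.kronecker_apply, Matrix.one_apply]
    split_ifs
    · rw [mul_one]
      exact hS.gH i k
    · rw [mul_zero]
      exact gtype_zero
  · rintro ⟨i, j⟩ ⟨k, l⟩
    rw [Matrix.kronecker_apply, Matrix.one_apply]
    split_ifs
    · rw [mul_one]
      exact hS.gK i k
    · rw [mul_zero]
      exact gtype_zero

/-- GFM -/
theorem gfm (hG : GfvStmt) : GfmStmt := by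
  intro d _ _ H hH
  obtain ⟨K, N, q, B, hS⟩ := hH
  set u : d × d → ℤ := fun x => if x.1 = x.2 then 1 else 0 with hu
  have hNu : (N ⊗ₖ (1 : Matrix d d ℤ) - (1 : Matrix d d ℤ) ⊗ₖ Nᵀ) *ᵥ u = 0 := by
    ext ⟨i, j⟩
    rw [Matrix.mulVec, dotProduct, Fintype.sum_prod_type]
    simp only [Matrix.sub_apply, Matrix.kronecker_apply, Matrix.transpose_apply, hu,
      Matrix.one_apply]
    simp only [mul_ite, mul_one, mul_zero, Finset.sum_ite_eq, Finset.mem_univ, if_true, Pi.zero_apply]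
    simp only [ite_mul, one_mul, zero_mul]
    rw [Finset.sum_sub_distrib]
    simp
  obtain ⟨n0, h0⟩ := hG (d × d) _ _ _ _ _ (gsys_kron hS) u hNu
  have hhv : ∀ x : d × d, hv (H ⊗ₖ (1 : Matrix d d (PowerSeries ℚ))) (fun j => (u j : ℚ)) x =
      H x.1 x.2 := by
    rintro ⟨i, j⟩
    unfold hv
    rw [Fintype.sum_prod_type]
    simp only [Matrix.kronecker_apply, hu, Matrix.one_apply]
    rw [Finset.sum_eq_single j, Finset.sum_eq_single j]
    · simp
    · intro l _ hl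
      rw [if_neg (Ne.symm hl)]
      simp
    · intro h
      exact absurd (Finset.mem_univ _) h
    · intro k _ hk
      refine Finset.sum_eq_zero fun l _ => ?_
      by_cases h1 : k = l
      · subst h1
        rw [if_neg (Ne.symm hk)]
        simp
      · rw [if_neg h1]
        simp
    · intro h
      exact absurd (Finset.mem_univ _) h
  refine ⟨n0, fun n hn a ha => ?_⟩
  obtain ⟨p, hp1, hp2⟩ := h0 n hn (fun x => a x.1 x.2) (by
    rw [Fintype.sum_prod_type]
    simp only [hhv]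
    exact ha)
  refine ⟨fun i j => p (i, j), ?_, fun i j => hp2 (i, j)⟩
  rw [Fintype.sum_prod_type] at hp1
  simp only [hhv] at hp1
  exact hp1

end Pool.Agent.MT100G.H43
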