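import Pool.Agent.MT100G.Stmts
import Pool.Agent.Helper65_MT100.Vag

/-! MT100-GEN, module BAS: the solution near infinity. -/

set_option autoImplicit false

namespace Pool.Agent.MT100G.H43

open Matrix Polynomial Pool.Agent.MT100

/-- absolute convergence -/
def AC (f : PowerSeries ℚ) (x : ℂ) : Prop :=
  Summable fun k => ‖((PowerSeries.coeff k f : ℚ) : ℂ) * x ^ k‖

theorem prod_coeffC (f g : PowerSeries ℚ) (x : ℂ) (n : ℕ) :
    ((PowerSeries.coeff n (f * g) : ℚ) : ℂ) * x ^ n =
      ∑ kl ∈ Finset.HasAntidiagonal.antidiagonal n, (((PowerSeries.coeff kl.1 f : ℚ) : ℂ) * x ^ kl.1) *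
        (((PowerSeries.coeff kl.2 g : ℚ) : ℂ) * x ^ kl.2) := by
  rw [PowerSeries.coeff_mul, Rat.cast_sum, Finset.sum_mul]
  refine Finset.sum_congr rfl fun kl hkl => ?_
  rw [Finset.HasAntidiagonal.mem_antidiagonal] at hkl
  rw [← hkl, Rat.cast_mul, pow_add]
  ring

theorem ac_mul {f g : PowerSeries ℚ} {x : ℂ} (hf : AC f x) (hg : AC g x) :
    AC (f * g) x ∧ evC (f * g) x = evC f x * evC g x := by
  have h1 := summable_norm_sum_mul_antidiagonal_of_summable_norm hf hg
  have h2 := tsum_mul_tsum_eq_tsum_sum_antidiagonal_of_summable_norm hf hg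
  constructor
  · unfold AC
    refine h1.congr fun n => ?_
    rw [prod_coeffC]
  · unfold evC
    rw [h2]
    exact tsum_congr fun n => prod_coeffC f g x n

theorem ac_add {f g : PowerSeries ℚ} {x : ℂ} (hf : AC f x) (hg : AC g x) :
    AC (f + g) x ∧ evC (f + g) x = evC f x + evC g x := by
  have he : ∀ n, ((PowerSeries.coeff n (f + g) : ℚ) : ℂ) * x ^ n =
      ((PowerSeries.coeff n f : ℚ) : ℂ) * x ^ n + ((PowerSeries.coeff n g : ℚ) : ℂ) * x ^ n := by
    intro n
    rw [map_add, Rat.cast_add, add_mul]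
  constructor
  · unfold AC
    refine Summable.of_nonneg_of_le (fun _ => norm_nonneg _) (fun n => ?_) (hf.add hg)
    rw [he]
    exact norm_add_le _ _
  · unfold evC
    rw [← hf.of_norm.tsum_add hg.of_norm]
    exact tsum_congr he

theorem ac_sub {f g : PowerSeries ℚ} {x : ℂ} (hf : AC f x) (hg : AC g x) :
    AC (f - g) x ∧ evC (f - g) x = evC f x - evC g x := by
  have he : ∀ n, ((PowerSeries.coeff n (f - g) : ℚ) : ℂ) * x ^ n =
      ((PowerSeries.coeff n f : ℚ) : ℂ) * x ^ n - ((PowerSeries.coeff n g : ℚ) : ℂ) * x ^ n := by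
    intro n
    rw [map_sub, Rat.cast_sub, sub_mul]
  constructor
  · unfold AC
    refine Summable.of_nonneg_of_le (fun _ => norm_nonneg _) (fun n => ?_) (hf.add hg)
    rw [he]
    exact norm_sub_le _ _
  · unfold evC
    rw [← hf.of_norm.tsum_sub hg.of_norm]
    exact tsum_congr he

/-- polynomials -/
theorem ac_poly (p : ℚ[X]) (x : ℂ) :
    AC (p : PowerSeries ℚ) x ∧ evC (p : PowerSeries ℚ) x = (p.map (algebraMap ℚ ℂ)).eval x := by
  have h0 : ∀ k ∉ Finset.range (p.natDegree + 1),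
      ((PowerSeries.coeff k (p : PowerSeries ℚ) : ℚ) : ℂ) * x ^ k = 0 := by
    intro k hk
    rw [Finset.mem_range] at hk
    rw [Polynomial.coeff_coe, Polynomial.coeff_eq_zero_of_natDegree_lt (by omega), Rat.cast_zero,
      zero_mul]
  constructor
  · unfold AC
    refine summable_of_ne_finset_zero (s := Finset.range (p.natDegree + 1)) fun k hk => ?_
    rw [h0 k hk, norm_zero]
  · unfold evC
    rw [tsum_eq_sum h0, eval_map, eval₂_eq_sum_range]
    refine Finset.sum_congr rfl fun k _ => ?_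
    rw [Polynomial.coeff_coe]
    rfl

theorem ac_zp (p : ℤ[X]) (x : ℂ) : AC (zp p) x ∧ evC (zp p) x = zC p x := by
  have h := ac_poly (zq p) x
  refine ⟨h.1, ?_⟩
  rw [show evC (zp p) x = _ from h.2]
  unfold zq zC
  rw [Polynomial.map_map]
  congr 2

theorem ac_int (m : ℤ) (x : ℂ) : AC ((m : ℤ) : PowerSeries ℚ) x ∧
    evC ((m : ℤ) : PowerSeries ℚ) x = m := by
  have h : ((m : ℤ) : PowerSeries ℚ) = ((C (m : ℚ) : ℚ[X]) : PowerSeries ℚ) := by
    rw [Polynomial.coe_C, map_intCast]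
  rw [h]
  refine ⟨(ac_poly _ x).1, ?_⟩
  rw [(ac_poly _ x).2, Polynomial.map_C, Polynomial.eval_C]
  simp

theorem ac_X (x : ℂ) : AC (PowerSeries.X : PowerSeries ℚ) x ∧
    evC (PowerSeries.X : PowerSeries ℚ) x = x := by
  have h : (PowerSeries.X : PowerSeries ℚ) = ((X : ℚ[X]) : PowerSeries ℚ) := by
    rw [Polynomial.coe_X]
  rw [h]
  refine ⟨(ac_poly _ x).1, ?_⟩
  rw [(ac_poly _ x).2, Polynomial.map_X, Polynomial.eval_X]

theorem ac_sum {ι : Type*} (s : Finset ι) (f : ι → PowerSeries ℚ) {x : ℂ}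
    (h : ∀ i ∈ s, AC (f i) x) : AC (∑ i ∈ s, f i) x ∧
      evC (∑ i ∈ s, f i) x = ∑ i ∈ s, evC (f i) x := by
  classical
  induction s using Finset.induction_on with
  | empty =>
    rw [Finset.sum_empty, Finset.sum_empty]
    have h := ac_int 0 x
    rw [Int.cast_zero, Int.cast_zero] at h
    exact h
  | insert a s ha ih =>
    rw [Finset.sum_insert ha, Finset.sum_insert ha]
    have h1 := ih fun i hi => h i (Finset.mem_insert_of_mem hi)
    have h2 := ac_add (h a (Finset.mem_insert_self _ _)) h1.1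
    refine ⟨h2.1, ?_⟩
    rw [h2.2, h1.2]

theorem ac_mmul {l m n : Type*} [Fintype m] {A : Matrix l m (PowerSeries ℚ)}
    {B : Matrix m n (PowerSeries ℚ)} {x : ℂ} (hA : ∀ i j, AC (A i j) x) (hB : ∀ i j, AC (B i j) x) :
    (∀ i j, AC ((A * B) i j) x) ∧ (A * B).map (fun f => evC f x) =
      A.map (fun f => evC f x) * B.map (fun f => evC f x) := by
  have h : ∀ i j, AC ((A * B) i j) x ∧ evC ((A * B) i j) x = ∑ k, evC (A i k) x * evC (B k j) x := by
    intro i j
    rw [Matrix.mul_apply]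
    have := ac_sum Finset.univ (fun k => A i k * B k j) fun k _ => (ac_mul (hA i k) (hB k j)).1
    refine ⟨this.1, ?_⟩
    rw [this.2]
    exact Finset.sum_congr rfl fun k _ => (ac_mul (hA i k) (hB k j)).2
  refine ⟨fun i j => (h i j).1, ?_⟩
  ext i j
  rw [Matrix.map_apply, (h i j).2, Matrix.mul_apply]
  rfl

/-- near zero: convergence and derivative -/
theorem gtype_near {f : PowerSeries ℚ} (hf : GType f) : ∃ δ : ℝ, 0 < δ ∧ ∀ x : ℂ, ‖x‖ < δ →
    AC f x ∧ AC (dv f) x ∧ HasDerivAt (evC f) (evC (dv f) x) x := by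
  obtain ⟨C, hC, hb⟩ := hf
  have hC' : (0 : ℝ) < C := by exact_mod_cast hC
  have hbd : ∀ k, ‖((PowerSeries.coeff k f : ℚ) : ℂ)‖ ≤ (C : ℝ) ^ (k + 1) := by
    intro k
    have h1 : |((PowerSeries.coeff k f : ℚ) : ℝ)| ≤ (C : ℝ) ^ (k + 1) := by
      have := (hb k).1
      exact_mod_cast this
    rw [← Complex.ofReal_ratCast, Complex.norm_real, Real.norm_eq_abs]
    exact h1
  have hr : (0 : ℝ) < 1 / (2 * C) := by positivity
  -- the majorant
  set u : ℕ → ℝ := fun k => (C : ℝ) ^ 2 * (((k : ℝ) + 1) ^ 1 * (1 / 2) ^ k) with hu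
  have hus : Summable u := by
    have h1 := summable_pow_mul_geometric_of_norm_lt_one (R := ℝ) 1 (r := 1 / 2)
      (by rw [Real.norm_eq_abs, abs_of_pos] <;> norm_num)
    have h2 := summable_pow_mul_geometric_of_norm_lt_one (R := ℝ) 0 (r := 1 / 2)
      (by rw [Real.norm_eq_abs, abs_of_pos] <;> norm_num)
    refine Summable.mul_left _ ((h1.add h2).congr fun k => ?_)
    ring
  have hxk : ∀ x : ℂ, ‖x‖ < 1 / (2 * C) → ∀ k, (C : ℝ) ^ k * ‖x‖ ^ k ≤ (1 / 2) ^ k := by
    intro x hx k
    rw [← mul_pow]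
    refine pow_le_pow_left₀ (by positivity) ?_ k
    rw [lt_div_iff₀ (by positivity)] at hx
    nlinarith [norm_nonneg x]
  have hdc : ∀ k, PowerSeries.coeff k (dv f) = PowerSeries.coeff (k + 1) f * ((k : ℚ) + 1) := by
    intro k
    exact PowerSeries.coeff_derivative f k
  have hd1 : ∀ x : ℂ, ‖x‖ < 1 / (2 * C) → ∀ k,
      ‖((PowerSeries.coeff k (dv f) : ℚ) : ℂ) * x ^ k‖ ≤ u k := by
    intro x hx k
    rw [hdc, Rat.cast_mul, norm_mul, norm_mul, norm_pow]
    have h1 : ‖(((k : ℚ) + 1 : ℚ) : ℂ)‖ = (k : ℝ) + 1 := by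
      rw [← Complex.ofReal_ratCast, Complex.norm_real, Real.norm_eq_abs]
      push_cast
      exact abs_of_nonneg (by positivity)
    rw [h1]
    calc ‖((PowerSeries.coeff (k + 1) f : ℚ) : ℂ)‖ * ((k : ℝ) + 1) * ‖x‖ ^ k
        ≤ (C : ℝ) ^ (k + 1 + 1) * ((k : ℝ) + 1) * ‖x‖ ^ k := by
          gcongr
          exact hbd _
      _ = (C : ℝ) ^ 2 * (((k : ℝ) + 1) ^ 1 * ((C : ℝ) ^ k * ‖x‖ ^ k)) := by ring
      _ ≤ u k := mul_le_mul_of_nonneg_left (mul_le_mul_of_nonneg_left (hxk x hx k)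
          (by positivity)) (by positivity)
  have hf1 : ∀ x : ℂ, ‖x‖ < 1 / (2 * C) → AC f x := by
    intro x hx
    unfold AC
    have hg : Summable fun k : ℕ => (C : ℝ) * (1 / 2) ^ k :=
      (summable_geometric_of_lt_one (by norm_num) (by norm_num)).mul_left _
    refine Summable.of_nonneg_of_le (fun k => norm_nonneg _) (fun k => ?_) hg
    rw [norm_mul, norm_pow]
    calc ‖((PowerSeries.coeff k f : ℚ) : ℂ)‖ * ‖x‖ ^ k ≤ (C : ℝ) ^ (k + 1) * ‖x‖ ^ k := by
          gcongr
          exact hbd _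
      _ = (C : ℝ) * ((C : ℝ) ^ k * ‖x‖ ^ k) := by ring
      _ ≤ _ := by
          gcongr
          exact hxk x hx k
  refine ⟨1 / (2 * C), hr, fun x hx => ⟨hf1 x hx, ?_, ?_⟩⟩
  · exact Summable.of_nonneg_of_le (fun k => norm_nonneg _) (hd1 x hx) hus
  · -- the terms and their derivatives
    have hder := hasDerivAt_tsum_of_isPreconnected (𝕜 := ℂ) (F := ℂ)
      (g := fun k y => ((PowerSeries.coeff k f : ℚ) : ℂ) * y ^ k)
      (g' := fun k y => ((PowerSeries.coeff k f : ℚ) : ℂ) * ((k : ℂ) * y ^ (k - 1)))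
      (u := fun k => if k = 0 then 0 else u (k - 1)) (t := Metric.ball (0 : ℂ) (1 / (2 * C)))
      (y₀ := 0) (y := x) ?_ Metric.isOpen_ball (convex_ball _ _).isPreconnected ?_ ?_
      (Metric.mem_ball_self hr) ?_ (by rwa [mem_ball_zero_iff])
    · refine hder.congr_deriv ?_
      unfold evC
      rw [Summable.tsum_eq_zero_add]
      · simp only [Nat.cast_zero, zero_mul, mul_zero, zero_add]
        refine tsum_congr fun k => ?_
        rw [hdc, Nat.add_sub_cancel]
        push_cast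
        ring
      · rw [← summable_nat_add_iff 1]
        refine Summable.of_norm_bounded hus fun k => ?_
        refine le_trans (le_of_eq ?_) (hd1 x hx k)
        rw [hdc, Nat.add_sub_cancel]
        push_cast
        congr 1
        ring
    · rw [← summable_nat_add_iff 1]
      refine hus.congr fun k => ?_
      rw [if_neg (Nat.succ_ne_zero k), Nat.add_sub_cancel]
    · intro k y _
      exact (hasDerivAt_pow k y).const_mul _
    · intro k y hy
      rw [mem_ball_zero_iff] at hy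
      rcases Nat.eq_zero_or_pos k with h0 | h0
      · subst h0
        simp
      · obtain ⟨k, rfl⟩ : ∃ k', k = k' + 1 := ⟨k - 1, by omega⟩
        rw [if_neg (Nat.succ_ne_zero k), Nat.add_sub_cancel]
        refine le_trans (le_of_eq ?_) (hd1 y hy k)
        rw [hdc]
        push_cast
        congr 1
        ring
    · refine (hf1 0 (by rwa [norm_zero])).of_norm.congr fun k => ?_
      rfl

/-! ### the exponential -/

variable {d : Type} [Fintype d] [DecidableEq d]

theorem eN_entry (N : Matrix d d ℤ) {R : Type} [CommRing R] [Algebra ℚ R] (y : R) (i j : d) :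
    eN N y i j = ∑ t ∈ Finset.range (Fintype.card d),
      (((t.factorial : ℚ)⁻¹) • y ^ t) * (((N ^ t) i j : ℤ) : R) := by
  unfold eN
  rw [Matrix.sum_apply]
  refine Finset.sum_congr rfl fun t _ => ?_
  rw [Matrix.smul_apply, Matrix.map_apply, smul_eq_mul]

theorem eN_zero (N : Matrix d d ℤ) (hN : IsNilpotent N) : eN N (0 : ℂ) = 1 := by
  rw [(Helper65MT100.eN_eq hN (0 : ℂ)).1, zero_smul, IsNilpotent.exp_zero]

theorem eN_mul_neg (N : Matrix d d ℤ) (hN : IsNilpotent N) (x : ℂ) :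
    eN N x * eN N (-x) = 1 := by
  rw [← eN_zero N hN, ← add_neg_cancel x, (Helper65MT100.eN_eq hN x).1,
    (Helper65MT100.eN_eq hN (-x)).1, (Helper65MT100.eN_eq hN (x + -x)).1, add_smul]
  refine (IsNilpotent.exp_add_of_commute ?_ (Helper65MT100.eN_eq hN x).2
    (Helper65MT100.eN_eq hN (-x)).2).symm
  exact ((Commute.refl (N.map (fun y : ℤ => (y : ℂ)))).smul_left x).smul_right (-x)

theorem eN_deriv (N : Matrix d d ℤ) (hN : IsNilpotent N) (x : ℂ) (i j : d) :
    HasDerivAt (fun y : ℂ => eN N y i j) ((N.map (fun y : ℤ => (y : ℂ)) * eN N x) i j) x := by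
  have h1 : ∀ y : ℂ, eN N y i j = ∑ t ∈ Finset.range (Fintype.card d),
      (((t.factorial : ℂ)⁻¹) * (((N ^ t) i j : ℤ) : ℂ)) * y ^ t := by
    intro y
    rw [eN_entry]
    refine Finset.sum_congr rfl fun t _ => ?_
    rw [Rat.smul_def]
    push_cast
    ring
  have h2 : HasDerivAt (fun y : ℂ => eN N y i j) (∑ t ∈ Finset.range (Fintype.card d),
      (((t.factorial : ℂ)⁻¹) * (((N ^ t) i j : ℤ) : ℂ)) * ((t : ℂ) * x ^ (t - 1))) x := by
    rw [show (fun y : ℂ => eN N y i j) = _ from funext h1]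
    exact HasDerivAt.fun_sum fun t _ => (hasDerivAt_pow t x).const_mul _
  refine h2.congr_deriv ?_
  have h3 : (N.map (fun y : ℤ => (y : ℂ)) * eN N x) i j = ∑ t ∈ Finset.range (Fintype.card d),
      (((t.factorial : ℂ)⁻¹) * (((N ^ (t + 1)) i j : ℤ) : ℂ)) * x ^ t := by
    rw [Matrix.mul_apply]
    have h4 : ∀ k, eN N x k j = ∑ t ∈ Finset.range (Fintype.card d),
        (((t.factorial : ℂ)⁻¹) * (((N ^ t) k j : ℤ) : ℂ)) * x ^ t := by
      intro k
      rw [eN_entry]
      refine Finset.sum_congr rfl fun t _ => ?_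
      rw [Rat.smul_def]
      push_cast
      ring
    simp only [h4, Finset.mul_sum]
    rw [Finset.sum_comm]
    refine Finset.sum_congr rfl fun t _ => ?_
    rw [pow_succ', Matrix.mul_apply, Int.cast_sum, Finset.mul_sum, Finset.sum_mul]
    refine Finset.sum_congr rfl fun k _ => ?_
    rw [Matrix.map_apply]
    push_cast
    ring
  rw [h3]
  have hcard : 0 < Fintype.card d := Fintype.card_pos_iff.mpr ⟨i⟩
  obtain ⟨c, hc⟩ : ∃ c, Fintype.card d = c + 1 := ⟨Fintype.card d - 1, by omega⟩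
  have hz : N ^ (c + 1) = 0 := by
    rw [← hc]
    exact Helper65MT100.pow_card_eq_zero hN
  rw [hc, Finset.sum_range_succ', Finset.sum_range_succ, hz]
  simp only [Nat.cast_zero, zero_mul, mul_zero, add_zero, Matrix.zero_apply, Int.cast_zero]
  refine Finset.sum_congr rfl fun t _ => ?_
  rw [Nat.add_sub_cancel, Nat.factorial_succ]
  have h5 : ((t : ℂ) + 1) ≠ 0 := by exact_mod_cast Nat.succ_ne_zero t
  push_cast
  field_simp

theorem eN_real (N : Matrix d d ℤ) (x : ℝ) :
    eN N ((x : ℝ) : ℂ) = (eN N x).map (algebraMap ℝ ℂ) := by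
  ext i j
  rw [Matrix.map_apply, eN_entry, eN_entry, map_sum]
  refine Finset.sum_congr rfl fun t _ => ?_
  rw [Rat.smul_def, Rat.smul_def]
  simp

theorem evC_real (f : PowerSeries ℚ) (x : ℝ) : evC f ((x : ℝ) : ℂ) = ((ev f x : ℝ) : ℂ) := by
  unfold evC ev
  rw [Complex.ofReal_tsum]
  refine tsum_congr fun k => ?_
  push_cast
  rfl

theorem zC_ne (q : ℤ[X]) (hq : q ≠ 0) : ∃ δ : ℝ, 0 < δ ∧ ∀ x : ℂ, ‖x‖ < δ → x ≠ 0 → zC q x ≠ 0 := by
  classical
  set p : ℂ[X] := q.map (Int.castRingHom ℂ) with hp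
  have hp0 : p ≠ 0 := by
    rw [hp]
    exact (Polynomial.map_ne_zero_iff (RingHom.injective_int _)).mpr hq
  have hfin : Set.Finite {x : ℂ | x ≠ 0 ∧ p.IsRoot x} :=
    (Polynomial.finite_setOfPred_isRoot hp0).subset fun x hx => hx.2
  have hopen : IsOpen {x : ℂ | x ≠ 0 ∧ p.IsRoot x}ᶜ := hfin.isClosed.isOpen_compl
  obtain ⟨δ, hδ, hball⟩ := Metric.isOpen_iff.mp hopen 0 (by simp)
  refine ⟨δ, hδ, fun x hx hx0 hz => ?_⟩
  have := hball (by rwa [mem_ball_zero_iff] : x ∈ Metric.ball (0 : ℂ) δ)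
  exact this ⟨hx0, hz⟩

/-- BAS -/
theorem bas : BasStmt := by
  intro d _ _ H K N q B hS
  -- radii
  have hH := fun i j => gtype_near (hS.gH i j)
  have hK := fun i j => gtype_near (hS.gK i j)
  choose δH hδH hHx using hH
  choose δK hδK hKx using hK
  obtain ⟨δq, hδq, hqx⟩ := zC_ne q hS.q0
  obtain ⟨δ, hδ, hδl⟩ : ∃ δ : ℝ, 0 < δ ∧ δ ≤ δq ∧ ∀ i j, δ ≤ δH i j ∧ δ ≤ δK i j := by
    have h1 : ∀ s : Finset (d × d), ∃ δ : ℝ, 0 < δ ∧ δ ≤ δq ∧
        ∀ p ∈ s, δ ≤ δH p.1 p.2 ∧ δ ≤ δK p.1 p.2 := by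
      intro s
      classical
      induction s using Finset.induction_on with
      | empty => exact ⟨δq, hδq, le_rfl, fun p hp => absurd hp (Finset.notMem_empty p)⟩
      | insert a s ha ih =>
        obtain ⟨δ, h1, h2, h3⟩ := ih
        refine ⟨min δ (min (δH a.1 a.2) (δK a.1 a.2)), lt_min h1 (lt_min (hδH _ _) (hδK _ _)),
          (min_le_left _ _).trans h2, fun p hp => ?_⟩
        rcases Finset.mem_insert.mp hp with rfl | hp
        · exact ⟨(min_le_right _ _).trans (min_le_left _ _),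
            (min_le_right _ _).trans (min_le_right _ _)⟩
        · exact ⟨(min_le_left _ _).trans (h3 p hp).1, (min_le_left _ _).trans (h3 p hp).2⟩
    obtain ⟨δ, h1, h2, h3⟩ := h1 Finset.univ
    exact ⟨δ, h1, h2, fun i j => h3 (i, j) (Finset.mem_univ _)⟩
  have hgood : ∀ w : ℂ, 1 / δ < w.re → ‖w⁻¹‖ < δ ∧ w ≠ 0 ∧ 0 < w.re := by
    intro w hw
    have h0 : 0 < w.re := lt_trans (by positivity) hw
    have hw0 : w ≠ 0 := by
      intro h
      rw [h] at h0
      simp at h0
    have hn : 1 / δ < ‖w‖ := lt_of_lt_of_le hw (Complex.re_le_norm w)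
    refine ⟨?_, hw0, h0⟩
    rw [norm_inv, inv_lt_comm₀ (norm_pos_iff.mpr hw0) hδ, ← one_div]
    exact hn
  refine ⟨1 / δ, by positivity, ?_, ?_⟩
  · intro c ρ hρ hsub
    have hd : ∀ w ∈ Metric.ball c ρ, IsUnit (YH H N w).det := by
      intro w hw
      obtain ⟨h1, h2, h3⟩ := hgood w (hsub hw)
      have hA : ∀ i j, AC (H i j) w⁻¹ := fun i j =>
        (hHx i j w⁻¹ (lt_of_lt_of_le h1 (hδl.2 i j).1)).1
      have hA' : ∀ i j, AC (K i j) w⁻¹ := fun i j =>
        (hKx i j w⁻¹ (lt_of_lt_of_le h1 (hδl.2 i j).2)).1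
      have hHK : H.map (fun f => evC f w⁻¹) * K.map (fun f => evC f w⁻¹) = 1 := by
        rw [← (ac_mmul hA hA').2, hS.inv]
        ext i j
        rw [Matrix.map_apply, Matrix.one_apply, Matrix.one_apply]
        by_cases hij : i = j
        · rw [if_pos hij, if_pos hij]
          have := (ac_int 1 w⁻¹).2
          rwa [Int.cast_one, Int.cast_one] at this
        · rw [if_neg hij, if_neg hij]
          have := (ac_int 0 w⁻¹).2
          rwa [Int.cast_zero, Int.cast_zero] at this
      unfold YH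
      rw [Matrix.det_mul]
      refine IsUnit.mul ?_ ?_
      · have := congrArg Matrix.det hHK
        rw [Matrix.det_mul, Matrix.det_one] at this
        exact IsUnit.of_mul_eq_one _ this
      · have := congrArg Matrix.det (eN_mul_neg N hS.nil (-Complex.log w))
        rw [Matrix.det_mul, Matrix.det_one] at this
        exact IsUnit.of_mul_eq_one _ this
    refine ⟨hρ, fun w hw => ?_, hd, fun w hw i j => ?_⟩
    · obtain ⟨h1, h2, h3⟩ := hgood w (hsub hw)
      exact ⟨h2, hqx _ (lt_of_lt_of_le h1 hδl.1) (inv_ne_zero h2)⟩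
    · obtain ⟨h1, h2, h3⟩ := hgood w (hsub hw)
      have hq1 : zC q w⁻¹ ≠ 0 := hqx _ (lt_of_lt_of_le h1 hδl.1) (inv_ne_zero h2)
      have hA := fun i j => hHx i j w⁻¹ (lt_of_lt_of_le h1 (hδl.2 i j).1)
      have hslit : w ∈ Complex.slitPlane := Or.inl h3
      have hlog : HasDerivAt (fun x => -Complex.log x) (-w⁻¹) w :=
        (Complex.hasDerivAt_log hslit).neg
      have hinv : HasDerivAt (fun x : ℂ => x⁻¹) (-(w ^ 2)⁻¹) w := hasDerivAt_inv h2
      have hD : HasDerivAt (fun x => YH H N x i j)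
          (∑ k, (evC (dv (H i k)) w⁻¹ * (-(w ^ 2)⁻¹) * eN N (-Complex.log w) k j +
            evC (H i k) w⁻¹ *
              ((N.map (fun y : ℤ => (y : ℂ)) * eN N (-Complex.log w)) k j * (-w⁻¹)))) w := by
        have he : (fun x => YH H N x i j) =
            fun x => ∑ k, evC (H i k) x⁻¹ * eN N (-Complex.log x) k j := by
          funext x
          unfold YH
          rw [Matrix.mul_apply]
          rfl
        rw [he]
        refine HasDerivAt.fun_sum fun k _ => ?_
        refine HasDerivAt.mul ?_ ?_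
        · exact HasDerivAt.comp w (hA i k).2.2 hinv
        · exact HasDerivAt.comp w (eN_deriv N hS.nil (-Complex.log w) k j) hlog
      refine hD.congr_deriv ?_
      -- the differential equation
      set Em := eN N (-Complex.log w) with hEm
      set Nm : Matrix d d ℂ := N.map (fun y : ℤ => (y : ℂ)) with hNm
      set Hm : Matrix d d ℂ := H.map (fun f => evC f w⁻¹) with hHm
      set Hd : Matrix d d ℂ := H.map (fun f => evC (dv f) w⁻¹) with hHd
      set Bm : Matrix d d ℂ := B.map (fun p => zC p w⁻¹) with hBm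
      have hode : (zC q w⁻¹ * w⁻¹) • Hd = Bm * Hm - zC q w⁻¹ • (Hm * Nm) := by
        ext a b
        have h4 := congrArg (fun M : Matrix d d (PowerSeries ℚ) => evC (M a b) w⁻¹) hS.ode
        simp only [Matrix.smul_apply, Matrix.sub_apply, Matrix.map_apply, smul_eq_mul] at h4
        have hBH := ac_mmul (A := B.map zp) (B := H) (x := w⁻¹)
          (fun i j => (ac_zp (B i j) w⁻¹).1) (fun i j => (hA i j).1)
        have hHN := ac_mmul (A := H) (B := N.map (fun x => (x : PowerSeries ℚ))) (x := w⁻¹)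
          (fun i j => (hA i j).1) (fun i j => (ac_int (N i j) w⁻¹).1)
        have hqX := ac_mul (ac_zp q w⁻¹).1 (ac_X w⁻¹).1
        have h5 := ac_mul hqX.1 (hA a b).2.1
        have h6 := ac_mul (ac_zp q w⁻¹).1 (hHN.1 a b)
        have h7 := ac_sub (hBH.1 a b) h6.1
        rw [h5.2, hqX.2, (ac_zp q w⁻¹).2, (ac_X w⁻¹).2, h7.2, h6.2, (ac_zp q w⁻¹).2] at h4
        have h8 : evC ((B.map zp * H) a b) w⁻¹ = (Bm * Hm) a b := by
          have := congrFun (congrFun hBH.2 a) b
          rw [Matrix.map_apply] at this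
          rw [this]
          have h9 : (B.map zp).map (fun f => evC f w⁻¹) = Bm := by
            ext a b
            simp only [Matrix.map_apply, hBm]
            exact (ac_zp _ _).2
          rw [h9]
        have h9 : evC ((H * N.map (fun x => (x : PowerSeries ℚ))) a b) w⁻¹ = (Hm * Nm) a b := by
          have := congrFun (congrFun hHN.2 a) b
          rw [Matrix.map_apply] at this
          rw [this]
          have h9 : (N.map (fun x => (x : PowerSeries ℚ))).map (fun f => evC f w⁻¹) = Nm := by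
            ext a b
            simp only [Matrix.map_apply, hNm]
            exact (ac_int _ _).2
          rw [h9]
        rw [h8, h9] at h4
        simp only [Matrix.smul_apply, Matrix.sub_apply, smul_eq_mul, hHd, Matrix.map_apply]
        exact h4
      have hsum : (∑ k, (evC (dv (H i k)) w⁻¹ * (-(w ^ 2)⁻¹) * Em k j +
            evC (H i k) w⁻¹ * ((Nm * Em) k j * (-w⁻¹)))) =
          (-(w ^ 2)⁻¹) * (Hd * Em) i j + (-w⁻¹) * (Hm * (Nm * Em)) i j := by
        rw [Finset.sum_add_distrib, Matrix.mul_apply, Matrix.mul_apply, Finset.mul_sum,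
          Finset.mul_sum]
        congr 1
        · refine Finset.sum_congr rfl fun k _ => ?_
          simp only [hHd, Matrix.map_apply]
          ring
        · refine Finset.sum_congr rfl fun k _ => ?_
          simp only [hHm, Matrix.map_apply]
          ring
      rw [hsum]
      have hY : YH H N w = Hm * Em := rfl
      rw [hY]
      have h10 : w⁻¹ * (Hd * Em) i j =
          (zC q w⁻¹)⁻¹ * (Bm * (Hm * Em)) i j - (Hm * (Nm * Em)) i j := by
        have h11 := congrArg (fun M : Matrix d d ℂ => (M * Em) i j) hode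
        simp only [Matrix.smul_mul, Matrix.sub_mul, Matrix.smul_apply, Matrix.sub_apply,
          smul_eq_mul, Matrix.mul_assoc] at h11
        have key : ∀ (Q x a b c : ℂ), Q ≠ 0 → Q * x * a = b - Q * c → x * a = Q⁻¹ * b - c := by
          intro Q x a b c hQ h
          have : b = Q * x * a + Q * c := by rw [h]; ring
          rw [this]
          field_simp
          ring
        exact key _ _ _ _ _ hq1 h11
      have h13 : (w ^ 2)⁻¹ * (Hd * Em) i j = w⁻¹ * (w⁻¹ * (Hd * Em) i j) := by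
        field_simp
      rw [neg_mul, h13, h10, mul_inv]
      ring
  · intro w hw
    have h0 : 0 < w := lt_trans (by positivity) hw
    unfold YH
    have h1 : (-Complex.log (w : ℂ)) = ((-Real.log w : ℝ) : ℂ) := by
      rw [Complex.ofReal_neg, Complex.ofReal_log h0.le]
    rw [h1, eN_real]
    have h2 : H.map (fun f => evC f (w : ℂ)⁻¹) =
        (H.map (fun f => ev f w⁻¹)).map (algebraMap ℝ ℂ) := by
      ext i j
      simp only [Matrix.map_apply]
      rw [← Complex.ofReal_inv, evC_real]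
      rfl
    rw [h2]
    exact (Matrix.map_mul (f := algebraMap ℝ ℂ)).symm

end Pool.Agent.MT100G.H43
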